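import Pool.Agent.MP_3ce0a0_al.H79.XS

/-
Sign patterns: which numbers of unequal places can occur.
-/

namespace Pool.Agent.MP_3ce0a0_al.H79.X

open Equiv Finset Function

namespace Pat

variable {κ : Type} [Fintype κ] [DecidableEq κ] {T : Finset (κ → ℂ × ℂ)} {m : (κ → ℂ × ℂ) → ℕ}

/-- all values are signs. -/
def Sg (θ : κ → ℂ × ℂ) : Prop := ∀ e, (θ e).1 ^ 2 = 1 ∧ (θ e).2 ^ 2 = 1

open Classical in
/-- the unequal places. -/
noncomputable def U (θ : κ → ℂ × ℂ) : Finset κ := univ.filter fun e => (θ e).1 ≠ (θ e).2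

omit [DecidableEq κ] in
lemma mem_U (θ : κ → ℂ × ℂ) (e : κ) : e ∈ U θ ↔ (θ e).1 ≠ (θ e).2 := by
  simp [U]

lemma sgn {x : ℂ} (h : x ^ 2 = 1) : x = 1 ∨ x = -1 := sq_eq_one_iff.1 h

lemma one_ne : (1 : ℂ) ≠ -1 := by norm_num

omit [Fintype κ] in
lemma two (hI : ∀ θ, θ ∈ T ↔ m θ ≠ 0) (hS : ∀ θ ∈ T, Sg θ) (θ : κ → ℂ × ℂ) (a : κ) (x : ℂ)
    (s : Finset (κ → ℂ × ℂ)) (hP : ∀ η, η ∈ s ↔ η ∈ T ∧ (∀ e, e ≠ a → η e = θ e) ∧ (η a).1 = x) :
    ∑ η ∈ s, m η = m (update θ a (x, 1)) + m (update θ a (x, -1)) := by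
  classical
  have hne : update θ a (x, 1) ≠ update θ a (x, -1) := by
    intro h
    have := congrFun h a
    simp only [update_self, Prod.mk.injEq, true_and] at this
    exact one_ne this
  rw [← Finset.sum_pair hne]
  apply Finset.sum_subset
  · intro η hη
    rw [hP] at hη
    obtain ⟨hT, h1, h2⟩ := hη
    have key : ∀ y, (η a).2 = y → η = update θ a (x, y) := by
      intro y hy
      funext e
      by_cases he : e = a
      · subst he
        rw [update_self]
        exact Prod.ext h2 hy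
      · rw [update_of_ne he, h1 e he]
    rcases sgn (hS η hT a).2 with h | h
    · rw [key 1 h]; simp
    · rw [key _ h]; simp
  · intro η hη hn
    by_contra hm
    apply hn
    rw [hP]
    refine ⟨(hI η).2 hm, ?_⟩
    rw [mem_insert, mem_singleton] at hη
    rcases hη with rfl | rfl
    · exact ⟨fun e he => update_of_ne he _ _, by simp⟩
    · exact ⟨fun e he => update_of_ne he _ _, by simp⟩

lemma key (hI : Inv T m) (hS : ∀ θ ∈ T, Sg θ) (θ : κ → ℂ × ℂ) (a c : κ) (hac : a ≠ c)
    (hc : θ c = (1, -1)) : m (update θ a (-1, -1)) = m (update θ a (1, 1)) := by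
  classical
  obtain ⟨A, B, hA, hB, hb⟩ : ∃ A B : Finset (κ → ℂ × ℂ),
      (∀ η, η ∈ A ↔ η ∈ T ∧ (∀ e, e ≠ a → e ≠ c → η e = update θ a (-1, -1) e) ∧
        (η c).1 = (update θ a (-1, -1) c).1 ∧ (η a).1 = (update θ a (-1, -1) a).1) ∧
      (∀ η, η ∈ B ↔ η ∈ T ∧ (∀ e, e ≠ a → e ≠ c → η e = update θ a (-1, -1) e) ∧
        (η c).1 = (update θ a (-1, -1) c).1 ∧
        (η a).1 * (η c).2 = (update θ a (-1, -1) a).1) ∧
      ∑ η ∈ A, m η = ∑ η ∈ B, m η :=
    ⟨_, _, fun _ => mem_filter, fun _ => mem_filter, hI.2.2.2.2 a c hac (update θ a (-1, -1))⟩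
  rw [update_self, update_of_ne hac.symm, hc] at hA hB
  dsimp only at hA hB
  rw [← Finset.sum_filter_add_sum_filter_not A (fun η => (η c).2 = -1),
    ← Finset.sum_filter_add_sum_filter_not B (fun η => (η c).2 = -1)] at hb
  have aux : ∀ η : κ → ℂ × ℂ, ((∀ e, e ≠ a → e ≠ c → η e = update θ a (-1, -1) e) ∧
      (η c).1 = 1 ∧ (η c).2 = -1) ↔ ∀ e, e ≠ a → η e = θ e := by
    intro η
    constructor
    · rintro ⟨h1, h2, h3⟩ e he
      by_cases hec : e = c
      · subst hec
        rw [hc]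
        exact Prod.ext h2 h3
      · rw [h1 e he hec, update_of_ne he]
    · intro h
      refine ⟨fun e he _ => by rw [h e he, update_of_ne he], ?_, ?_⟩
      · rw [h c hac.symm, hc]
      · rw [h c hac.symm, hc]
  have e1 := two hI.1 hS θ a (-1) (A.filter fun η => (η c).2 = -1) (by
    intro η
    rw [mem_filter, hA, ← aux]
    tauto)
  have e2 := two hI.1 hS θ a 1 (B.filter fun η => (η c).2 = -1) (by
    intro η
    rw [mem_filter, hB, ← aux]
    constructor
    · rintro ⟨⟨h0, h1, h2, h3⟩, h4⟩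
      refine ⟨h0, ⟨h1, h2, h4⟩, ?_⟩
      rw [h4] at h3
      linear_combination -h3
    · rintro ⟨h0, ⟨h1, h2, h4⟩, h3⟩
      refine ⟨⟨h0, h1, h2, ?_⟩, h4⟩
      rw [h3, h4, one_mul])
  have e3 : (A.filter fun η => ¬ (η c).2 = -1) = B.filter fun η => ¬ (η c).2 = -1 := by
    ext η
    rw [mem_filter, mem_filter, hA, hB]
    by_cases hη : η ∈ T
    · rcases sgn (hS η hη c).2 with h | h
      · rw [h, mul_one]
      · simp [h]
    · simp [hη]
  have e4 : m (update θ a (-1, 1)) = m (update θ a (1, -1)) := by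
    have := hI.2.2.2.1 (update θ a (1, -1)) a
    rw [update_self, update_idem] at this
    exact this
  rw [e1, e2, e3] at hb
  omega

lemma step (hI : Inv T m) (hS : ∀ θ ∈ T, Sg θ) (θ : κ → ℂ × ℂ) (hθ : Sg θ) (hU : (U θ).Nonempty)
    (a : κ) (q : ℂ × ℂ) (hq : q.1 ^ 2 = 1 ∧ q.2 ^ 2 = 1) (hqa : q.1 = q.2 ↔ (θ a).1 = (θ a).2) :
    m (update θ a q) = m θ := by
  by_cases h0 : q = θ a
  · rw [h0, update_eq_self]
  by_cases hq' : q.1 = q.2
  · have ha := hqa.1 hq'
    obtain ⟨c, hc⟩ := hU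
    rw [mem_U] at hc
    have hac : a ≠ c := by
      rintro rfl
      exact hc ha
    have k : m (update θ a (-1, -1)) = m (update θ a (1, 1)) := by
      by_cases h1 : θ c = (1, -1)
      · exact key hI hS θ a c hac h1
      · have h2 : (θ c).swap = (1, -1) := by
          rcases sgn (hθ c).1 with h | h <;> rcases sgn (hθ c).2 with h' | h'
          · exact absurd (h.trans h'.symm) hc
          · exact absurd (Prod.ext h h') h1
          · exact Prod.ext h' h
          · exact absurd (h.trans h'.symm) hc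
        have k := key hI hS (update θ c (θ c).swap) a c hac (by rw [update_self, h2])
        have f1 := hI.2.2.2.1 (update θ a (-1, -1)) c
        have f2 := hI.2.2.2.1 (update θ a (1, 1)) c
        rw [update_of_ne hac.symm, update_comm hac] at f1 f2
        rw [← f1, ← f2, k]
    rcases sgn hq.1 with h | h <;> rcases sgn (hθ a).1 with h' | h'
    · exact absurd (Prod.ext (h.trans h'.symm) (by rw [← hq', ← ha, h, h'])) h0
    · have h1 : q = (1, 1) := Prod.ext h (hq' ▸ h)
      have h2 : θ a = (-1, -1) := Prod.ext h' (ha ▸ h')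
      rw [h1, ← k, ← h2, update_eq_self]
    · have h1 : q = (-1, -1) := Prod.ext h (hq' ▸ h)
      have h2 : θ a = (1, 1) := Prod.ext h' (ha ▸ h')
      rw [h1, k, ← h2, update_eq_self]
    · exact absurd (Prod.ext (h.trans h'.symm) (by rw [← hq', ← ha, h, h'])) h0
  · have ha : (θ a).1 ≠ (θ a).2 := fun h => hq' (hqa.2 h)
    have h2 : q = (θ a).swap := by
      rcases sgn hq.1 with h | h <;> rcases sgn hq.2 with g | g <;>
        rcases sgn (hθ a).1 with h' | h' <;> rcases sgn (hθ a).2 with g' | g' <;>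
        first
        | exact absurd (h.trans g.symm) hq'
        | exact absurd (h'.trans g'.symm) ha
        | exact absurd (Prod.ext (h.trans h'.symm) (g.trans g'.symm)) h0
        | exact Prod.ext (h.trans g'.symm) (g.trans h'.symm)
    rw [h2]
    exact hI.2.2.2.1 θ a

lemma same (hI : Inv T m) (hS : ∀ θ ∈ T, Sg θ) (θ θ' : κ → ℂ × ℂ) (hθ : Sg θ) (hθ' : Sg θ')
    (hU : (U θ).Nonempty) (h : U θ' = U θ) : m θ' = m θ := by
  have hh : ∀ e, (θ' e).1 = (θ' e).2 ↔ (θ e).1 = (θ e).2 := by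
    intro e
    have := Finset.ext_iff.1 h e
    rw [mem_U, mem_U] at this
    exact not_iff_not.1 this
  have main : ∀ s : Finset κ, m (s.piecewise θ' θ) = m θ := by
    intro s
    induction s using Finset.induction_on with
    | empty => rw [piecewise_empty]
    | insert j s hj ih =>
      rw [piecewise_insert, step hI hS _ ?_ ?_ j (θ' j) (hθ' j) ?_, ih]
      · intro e
        by_cases he : e ∈ s
        · rw [piecewise_eq_of_mem _ _ _ he]; exact hθ' e
        · rw [piecewise_eq_of_notMem _ _ _ he]; exact hθ e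
      · obtain ⟨c, hc⟩ := hU
        refine ⟨c, ?_⟩
        rw [mem_U] at hc ⊢
        by_cases he : c ∈ s
        · rw [piecewise_eq_of_mem _ _ _ he]; exact fun g => hc ((hh c).1 g)
        · rw [piecewise_eq_of_notMem _ _ _ he]; exact hc
      · rw [piecewise_eq_of_notMem _ _ _ hj]; exact hh j
  have := main univ
  rwa [piecewise_univ] at this

lemma same_card (hI : Inv T m) (hS : ∀ θ ∈ T, Sg θ) (θ θ' : κ → ℂ × ℂ) (hθ : Sg θ) (hθ' : Sg θ')
    (hU : 0 < (U θ).card) (h : (U θ').card = (U θ).card) : m θ' = m θ := by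
  classical
  let σ : Perm κ := Equiv.extendSubtype (Finset.equivOfCardEq h.symm)
  have hσ : U (θ' ∘ σ) = U θ := by
    ext e
    have : e ∈ U (θ' ∘ σ) ↔ σ e ∈ U θ' := by rw [mem_U, mem_U]; rfl
    rw [this]
    constructor
    · intro g
      by_contra hn
      exact Equiv.extendSubtype_not_mem _ e hn g
    · intro g
      exact Equiv.extendSubtype_mem _ e g
  rw [← hI.2.2.1 σ θ']
  exact same hI hS θ _ hθ (fun e => hθ' (σ e)) (card_pos.1 hU) hσ

lemma choose_two_le (N p : ℕ) (h2 : 2 ≤ p) (hp : p + 2 ≤ N) : N.choose 2 ≤ N.choose p := by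
  have aux : ∀ q, 2 ≤ q → q ≤ N / 2 → N.choose 2 ≤ N.choose q := by
    intro q hq
    induction q, hq using Nat.le_induction with
    | base => intro _; exact le_rfl
    | succ q _ ih =>
      intro h
      exact (ih (by omega)).trans (Nat.choose_le_succ_of_lt_half_left (by omega))
  by_cases h : p ≤ N / 2
  · exact aux p h2 h
  · rw [← Nat.choose_symm (show p ≤ N by omega)]
    exact aux _ (by omega) (by omega)

/-- the sign vector with given unequal places and first coordinates. -/
def vec (x : Finset κ × (κ → Bool)) : κ → ℂ × ℂ :=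
  fun e => (if x.2 e then 1 else -1, if (x.2 e ↔ e ∈ x.1) then -1 else 1)

omit [Fintype κ] in
lemma vec_sg (x : Finset κ × (κ → Bool)) : Sg (vec x) := by
  intro e
  unfold vec
  constructor <;> split_ifs <;> norm_num

lemma U_vec (x : Finset κ × (κ → Bool)) : U (vec x) = x.1 := by
  ext e
  rw [mem_U]
  unfold vec
  by_cases h1 : x.2 e = true <;> by_cases h2 : e ∈ x.1 <;> simp [h1, h2, one_ne, one_ne.symm]

lemma vec_inj : Injective (vec (κ := κ)) := by
  intro x y h
  apply Prod.ext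
  · rw [← U_vec x, h, U_vec]
  · funext e
    have := congrArg Prod.fst (congrFun h e)
    unfold vec at this
    by_cases h1 : x.2 e = true <;> by_cases h2 : y.2 e = true <;>
      simp_all [one_ne, one_ne.symm]

lemma count (hI : Inv T m) (hS : ∀ θ ∈ T, Sg θ) (θ : κ → ℂ × ℂ) (hθ : θ ∈ T)
    (hU : 0 < (U θ).card) : (Fintype.card κ).choose (U θ).card * 2 ^ Fintype.card κ ≤ T.card := by
  have h := Finset.card_le_card_of_injOn (s := powersetCard (U θ).card univ ×ˢ (univ : Finset (κ → Bool)))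
    (t := T) vec ?_ (vec_inj.injOn)
  · rwa [card_product, card_powersetCard, card_univ, card_univ, Fintype.card_fun,
      Fintype.card_bool] at h
  · intro x hx
    rw [mem_coe, mem_product, mem_powersetCard] at hx
    rw [mem_coe, hI.1, same_card hI hS θ _ (hS θ hθ) (vec_sg x) hU (by rw [U_vec, hx.1.2])]
    exact (hI.1 θ).1 hθ

omit [DecidableEq κ] in
lemma prod_eq (θ : κ → ℂ × ℂ) (hθ : Sg θ) : ∏ e, (θ e).1 * (θ e).2 = (-1) ^ (U θ).card := by
  classical
  rw [← Finset.prod_const, ← Finset.prod_subset (subset_univ (U θ))]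
  · apply prod_congr rfl
    intro e he
    rw [mem_U] at he
    rcases sgn (hθ e).1 with h | h <;> rcases sgn (hθ e).2 with h' | h'
    · exact absurd (h.trans h'.symm) he
    · rw [h, h', one_mul]
    · rw [h, h', mul_one]
    · exact absurd (h.trans h'.symm) he
  · intro e _ he
    rw [mem_U, not_not] at he
    rw [← he, ← sq, (hθ e).1]

lemma card_U (θ : κ → ℂ × ℂ) :
    (∃ e₀, ∀ e, (θ e).1 = (θ e).2 ↔ e = e₀) ↔ (U θ).card + 1 = Fintype.card κ := by
  have h1 : (U θ).card + (U θ)ᶜ.card = Fintype.card κ := card_add_card_compl _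
  have h2 : (∃ e₀, ∀ e, (θ e).1 = (θ e).2 ↔ e = e₀) ↔ (U θ)ᶜ.card = 1 := by
    rw [card_eq_one]
    apply exists_congr
    intro e₀
    rw [Finset.ext_iff]
    apply forall_congr'
    intro e
    rw [mem_compl, mem_U, not_not, mem_singleton]
  rw [h2]
  omega

end Pat

open Pat in
theorem spat : SPat := by
  intro κ _ _ T m h7 hodd hI hS hP hT
  constructor
  · intro θ hθ
    by_cases h0 : (U θ).card = 0
    · left
      intro e
      by_contra hn
      have : e ∈ U θ := (mem_U θ e).2 hn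
      rw [card_eq_zero.1 h0] at this
      exact notMem_empty e this
    right
    rw [card_U]
    by_contra hn
    have hev : Even (U θ).card := by
      have := hP θ hθ
      rw [prod_eq θ (hS θ hθ)] at this
      exact (neg_one_pow_eq_one_iff_even one_ne.symm).1 this
    have hle : (U θ).card ≤ Fintype.card κ := card_le_univ _
    have hc := (count hI hS θ hθ (Nat.pos_of_ne_zero h0)).trans hT
    obtain ⟨k, hk⟩ := hev
    obtain ⟨l, hl⟩ := hodd
    have h2 := choose_two_le (Fintype.card κ) (U θ).card (by omega) (by omega)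
    rw [pow_succ', ← mul_assoc] at hc
    have h3 := h2.trans (Nat.le_of_mul_le_mul_right hc (by positivity))
    rw [Nat.choose_two_right, hl] at h3
    have h4 : (2 * l + 1) * (2 * l + 1 - 1) / 2 = (2 * l + 1) * l := by
      rw [Nat.add_sub_cancel, mul_left_comm, Nat.mul_div_cancel_left _ (by norm_num)]
    rw [h4] at h3
    have := Nat.le_of_mul_le_mul_left h3 (by omega)
    omega
  · by_cases h : ∃ θ' : κ → ℂ × ℂ, Sg θ' ∧ ∃ e₀, ∀ e, (θ' e).1 = (θ' e).2 ↔ e = e₀
    · obtain ⟨θ', h1, h2⟩ := h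
      refine ⟨m θ', fun θ g1 g2 => ?_⟩
      rw [card_U] at h2 g2
      exact same_card hI hS θ' θ h1 g1 (by omega) (by omega)
    · exact ⟨0, fun θ g1 g2 => absurd ⟨θ, g1, g2⟩ h⟩

end Pool.Agent.MP_3ce0a0_al.H79.X
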